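import Pool.Agent.P.MP_56b3f5_al.Main

set_option autoImplicit false

open Pool.Agent.P.MP_56b3f5_al

theorem Pool.Agent.Results.MP_56b3f5_al.Disproof.result :
    ∃ J : ℕ, 0 < J ∧
      (∃ (V : Type) (_ : AddCommGroup V) (_ : Module ℂ V) (H Ep Em Fp Fm R : Module.End ℂ V),
        IsPlusIrrep J H Ep Em Fp Fm R) ∧
      ∀ (V : Type) [AddCommGroup V] [Module ℂ V] (H Ep Em Fp Fm R : Module.End ℂ V),
        IsPlusIrrep J H Ep Em Fp Fm R → ∀ M : Finset ℂ, ¬ QuotEmbeds J M t3 Fp Fm R :=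
  ⟨7, by norm_num, ⟨_, _, _, model_exists 7⟩, fun _ _ _ _ _ _ _ _ _ h M ⟨φ, hφ, hinj⟩ =>
    not_injective h M φ hφ hinj⟩
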